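import Mathlib

/-!
The lower bound in the problem of Bollobás and Harary on graphs which keep diameter at most `d`
after the removal of any edge.
-/

set_option autoImplicit false

namespace Pool.Agent.Helper7.BH2

open SimpleGraph Finset

/-! ### Balls avoiding the hubs -/

section ball

variable {V : Type*} [Fintype V] [DecidableEq V] (G : SimpleGraph V) [DecidableRel G.Adj]
  (H : Finset V)

/-- The vertices which can be reached from `x` in at most `k` steps without passing through a
hub (a vertex of `H`) before the last step. -/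
def ball : ℕ → V → Finset V
  | 0, x => {x}
  | k + 1, x => {x} ∪ (if x ∈ H then ∅ else (G.neighborFinset x).biUnion (ball k))

lemma card_ball (D : ℕ) (hD : ∀ x, x ∉ H → G.degree x < D) (hD1 : 1 ≤ D) :
    ∀ (k : ℕ) (x : V), (ball G H k x).card ≤ D ^ k := by
  intro k
  induction k with
  | zero => intro x; simp [ball]
  | succ k ih =>
    intro x
    have hpos : 1 ≤ D ^ k := Nat.one_le_pow _ _ hD1
    rw [ball]
    split_ifs with hx
    · simp only [union_empty, card_singleton]
      exact Nat.one_le_pow _ _ hD1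
    · have h1 : ((G.neighborFinset x).biUnion (ball G H k)).card ≤ (D - 1) * D ^ k := by
        refine card_biUnion_le.trans ?_
        calc ∑ a ∈ G.neighborFinset x, (ball G H k a).card
            ≤ ∑ _a ∈ G.neighborFinset x, D ^ k := sum_le_sum fun a _ => ih a
          _ = G.degree x * D ^ k := by rw [sum_const, smul_eq_mul]; rfl
          _ ≤ (D - 1) * D ^ k := Nat.mul_le_mul_right _ (by have := hD x hx; omega)
      refine (card_union_le _ _).trans ?_
      rw [card_singleton]
      have h2 : (D - 1) * D ^ k + D ^ k = D ^ (k + 1) := by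
        obtain ⟨E, rfl⟩ : ∃ E, D = E + 1 := ⟨D - 1, by omega⟩
        rw [pow_succ]
        simp only [Nat.add_sub_cancel]
        ring
      omega

variable {G H}

lemma walk_split {G' : SimpleGraph V} (hG' : G' ≤ G) :
    ∀ {x y : V} (w : G'.Walk x y) (k : ℕ), w.length ≤ k →
      y ∈ ball G H k x ∨ ∃ h ∈ H, ∃ (w1 : G'.Walk x h) (w2 : G'.Walk h y),
        w1.length + w2.length ≤ k := by
  intro x y w
  induction w with
  | nil =>
    intro k _
    left
    cases k <;> simp [ball]
  | @cons x z y hxz w ih =>
    intro k hk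
    rw [Walk.length_cons] at hk
    obtain ⟨k', rfl⟩ : ∃ k', k = k' + 1 := ⟨k - 1, by omega⟩
    rcases ih k' (by omega) with h | ⟨h, hh, w1, w2, h12⟩
    · by_cases hx : x ∈ H
      · right
        exact ⟨x, hx, Walk.nil, Walk.cons hxz w, by simp; omega⟩
      · left
        rw [ball, if_neg hx, mem_union, mem_biUnion]
        right
        exact ⟨z, by simpa using hG' hxz, h⟩
    · right
      exact ⟨h, hh, Walk.cons hxz w1, w2, by rw [Walk.length_cons]; omega⟩

end ball

/-! ### The distance to the hubs -/

section level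

variable {V : Type*} (G : SimpleGraph V) (H : Finset V)

/-- The distance to the hubs. -/
noncomputable def lev (x : V) : ℕ := sInf {k : ℕ | ∃ h ∈ H, ∃ w : G.Walk x h, w.length = k}

variable {G H}

lemma lev_le {x h : V} (hh : h ∈ H) (w : G.Walk x h) : lev G H x ≤ w.length :=
  Nat.sInf_le ⟨h, hh, w, rfl⟩

lemma lev_attained (hconn : ∀ x, ∃ h ∈ H, Nonempty (G.Walk x h)) (x : V) :
    ∃ h ∈ H, ∃ w : G.Walk x h, w.length = lev G H x := by
  obtain ⟨h, hh, ⟨w⟩⟩ := hconn x
  exact Nat.sInf_mem (s := {k : ℕ | ∃ h ∈ H, ∃ w : G.Walk x h, w.length = k}) ⟨_, h, hh, w, rfl⟩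

lemma lev_zero {x : V} (hx : x ∈ H) : lev G H x = 0 := by
  have := lev_le hx (Walk.nil : G.Walk x x)
  simpa using this

lemma lev_pos (hconn : ∀ x, ∃ h ∈ H, Nonempty (G.Walk x h)) {x : V} (hx : x ∉ H) :
    1 ≤ lev G H x := by
  obtain ⟨h, hh, w, hw⟩ := lev_attained hconn x
  rcases Nat.eq_zero_or_pos (lev G H x) with h0 | h0
  · rw [h0] at hw
    have := Walk.eq_of_length_eq_zero hw
    subst this
    exact absurd hh hx
  · exact h0

lemma lev_adj (hconn : ∀ x, ∃ h ∈ H, Nonempty (G.Walk x h)) {x y : V} (hxy : G.Adj x y) :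
    lev G H x ≤ lev G H y + 1 := by
  obtain ⟨h, hh, w, hw⟩ := lev_attained hconn y
  have := lev_le hh (Walk.cons hxy w)
  rw [Walk.length_cons, hw] at this
  exact this

lemma exists_parent (hconn : ∀ x, ∃ h ∈ H, Nonempty (G.Walk x h)) {x : V} (hx : x ∉ H) :
    ∃ y, G.Adj x y ∧ lev G H y + 1 = lev G H x := by
  obtain ⟨h, hh, w, hw⟩ := lev_attained hconn x
  cases w with
  | nil => exact absurd hh hx
  | @cons _ y _ hxy w =>
    refine ⟨y, hxy, ?_⟩
    rw [Walk.length_cons] at hw
    have h1 := lev_le hh w
    have h2 := lev_adj hconn hxy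
    omega

end level

/-! ### The assignment -/

section count

variable {V : Type*}

lemma crossing {G G' : SimpleGraph V} (hG' : G' ≤ G) {H : Finset V}
    (hconn : ∀ x, ∃ h ∈ H, Nonempty (G.Walk x h)) (S : Set V) (hSH : ∀ h ∈ H, h ∉ S) :
    ∀ {x h : V} (w : G'.Walk x h), h ∈ H → x ∈ S →
      ∃ u ∈ S, ∃ z, z ∉ S ∧ G'.Adj u z ∧ lev G H u + 1 + lev G H z ≤ w.length + lev G H x := by
  intro x h w
  induction w with
  | nil => intro hh hx; exact absurd hx (hSH _ hh)
  | @cons x y h hxy w ih =>
    intro hh hx
    by_cases hy : y ∈ S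
    · obtain ⟨u, hu, z, hz, huz, hle⟩ := ih hh hy
      refine ⟨u, hu, z, hz, huz, ?_⟩
      have := lev_adj hconn (hG' hxy).symm
      rw [Walk.length_cons]
      omega
    · refine ⟨x, hx, y, hy, hxy, ?_⟩
      have := lev_le hh (w.mapLe hG')
      rw [Walk.length_map] at this
      rw [Walk.length_cons]
      omega

variable [Fintype V] [DecidableEq V] (G : SimpleGraph V) [DecidableRel G.Adj]

omit [DecidableEq V] in
lemma card_adj_pairs :
    (univ.filter (fun q : V × V => G.Adj q.1 q.2)).card = 2 * G.edgeFinset.card := by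
  rw [← G.sum_degrees_eq_twice_card_edges, card_filter, Fintype.sum_prod_type]
  refine sum_congr rfl fun x _ => ?_
  rw [← card_neighborFinset_eq_degree, neighborFinset_eq_filter, card_filter]

lemma card_pairs_le (U : Finset V) (D : ℕ) (hD : ∀ u ∈ U, G.degree u ≤ D) :
    (univ.filter (fun q : V × V => G.Adj q.1 q.2 ∧ q.1 ∈ U)).card ≤ U.card * D := by
  have hsub : univ.filter (fun q : V × V => G.Adj q.1 q.2 ∧ q.1 ∈ U) ⊆
      U.biUnion (fun u => (G.neighborFinset u).image (fun z => (u, z))) := by
    rintro ⟨a, c⟩ hq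
    simp only [mem_filter, mem_univ, true_and] at hq
    simp only [mem_biUnion, mem_image, mem_neighborFinset]
    exact ⟨a, hq.2, c, hq.1, rfl⟩
  refine (card_le_card hsub).trans (card_biUnion_le.trans ?_)
  calc ∑ a ∈ U, ((G.neighborFinset a).image (fun z => (a, z))).card
      ≤ ∑ _a ∈ U, D := sum_le_sum fun a ha => card_image_le.trans
        ((card_neighborFinset_eq_degree G a).le.trans (hD a ha))
    _ = U.card * D := by rw [sum_const, smul_eq_mul]

theorem count (H : Finset V) (hconn : ∀ x, ∃ h ∈ H, Nonempty (G.Walk x h)) (M R b D : ℕ)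
    (hM : ∀ (e : Sym2 V) (x : V), ∃ h ∈ H, ∃ w : (G.deleteEdges {e}).Walk x h, w.length ≤ M)
    (hb : ∀ a c : ℕ, a ≤ R → c ≤ R → min a (M - c) + min c (M - a) ≤ b)
    (hD : ∀ x, x ∉ H → G.degree x ≤ D) :
    2 * (univ \ H).card * (b + 1) ≤ 2 * b * G.edgeFinset.card +
      2 * M * ((univ.filter (fun u => R < lev G H u)).card * D) := by
  classical
  -- the parents
  obtain ⟨p, hp0, hp1⟩ : ∃ p : V → V, (∀ x ∈ H, p x = x) ∧
      ∀ x, x ∉ H → G.Adj x (p x) ∧ lev G H (p x) + 1 = lev G H x := by
    refine ⟨fun x => if hx : x ∈ H then x else Classical.choose (exists_parent hconn hx), ?_, ?_⟩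
    · intro x hx; simp [hx]
    · intro x hx
      have := Classical.choose_spec (exists_parent hconn hx)
      simpa [hx] using this
  have hit0 : ∀ (i : ℕ) (x : V), x ∈ H → p^[i] x = x := by
    intro i x hx
    exact Function.iterate_fixed (hp0 x hx) i
  have hit : ∀ (i : ℕ) (u : V), p^[i] u ∉ H → lev G H u = lev G H (p^[i] u) + i := by
    intro i
    induction i with
    | zero => intro u _; rfl
    | succ i ih =>
      intro u hu
      rw [Function.iterate_succ_apply] at hu ⊢
      have hu' : u ∉ H := by
        intro h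
        rw [hp0 u h, hit0 i u h] at hu
        exact hu h
      have h1 := ih (p u) hu
      have h2 := (hp1 u hu').2
      omega
  set A : Finset (V × V) := univ.filter (fun q : V × V => G.Adj q.1 q.2) with hA
  set Dd : Finset (V × V) := univ.filter
    (fun q : V × V => G.Adj q.1 q.2 ∧ p q.1 ≠ q.2 ∧ p q.2 ≠ q.1) with hDd
  set f : V × V → ℕ := fun q => min (lev G H q.1) (M - lev G H q.2) with hf
  -- the assignment
  have key : ∀ v, v ∉ H → ∃ q ∈ Dd, ∃ i, i < f q ∧ p^[i] q.1 = v := by
    intro v hv
    obtain ⟨h, hh, w, hw⟩ := hM s(v, p v) v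
    have hle : G.deleteEdges {s(v, p v)} ≤ G := G.deleteEdges_le _
    obtain ⟨u, ⟨i, hi⟩, z, hz, huz, hlen⟩ := crossing hle hconn {u | ∃ i, p^[i] u = v}
      (by
        rintro h' hh' ⟨i, hi⟩
        rw [hit0 i h' hh'] at hi
        exact hv (hi ▸ hh')) w hh ⟨0, rfl⟩
    have hadj : G.Adj u z := hle huz
    have hne : s(u, z) ≠ s(v, p v) := by
      intro h'
      rw [deleteEdges_adj] at huz
      exact huz.2 (by simp [h'])
    have hlev := hit i u (by rw [hi]; exact hv)
    rw [hi] at hlev
    have hpos := lev_pos hconn hv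
    refine ⟨(u, z), ?_, i, ?_, hi⟩
    · rw [hDd, mem_filter]
      refine ⟨mem_univ _, hadj, ?_, ?_⟩
      · show p u ≠ z
        intro h'
        rcases i with _ | i
        · apply hne
          have : u = v := hi
          rw [← this, h']
        · apply hz
          refine ⟨i, ?_⟩
          rw [← h', ← Function.iterate_succ_apply]
          exact hi
      · show p z ≠ u
        intro h'
        apply hz
        refine ⟨i + 1, ?_⟩
        rw [Function.iterate_succ_apply, h']
        exact hi
    · show i < min (lev G H u) (M - lev G H z)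
      rw [lt_min_iff]
      omega
  have h1 : (univ \ H).card ≤ ∑ q ∈ Dd, f q := by
    have hsub : univ \ H ⊆ (Dd.sigma (fun q => range (f q))).image
        (fun s => p^[s.2] s.1.1) := by
      intro v hv
      rw [mem_sdiff] at hv
      obtain ⟨q, hq, i, hi, hv'⟩ := key v hv.2
      rw [mem_image]
      exact ⟨⟨q, i⟩, by rw [mem_sigma, mem_range]; exact ⟨hq, hi⟩, hv'⟩
    refine (card_le_card hsub).trans (card_image_le.trans ?_)
    rw [card_sigma]
    simp
  have h2 : ∑ q ∈ Dd, f q = ∑ q ∈ Dd, f q.swap := by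
    refine sum_nbij' Prod.swap Prod.swap ?_ ?_ ?_ ?_ ?_
    · rintro ⟨a, c⟩ hq
      simp only [hDd, mem_filter, mem_univ, true_and, Prod.swap] at hq ⊢
      exact ⟨hq.1.symm, hq.2.2, hq.2.1⟩
    · rintro ⟨a, c⟩ hq
      simp only [hDd, mem_filter, mem_univ, true_and, Prod.swap] at hq ⊢
      exact ⟨hq.1.symm, hq.2.2, hq.2.1⟩
    · intro q _; simp
    · intro q _; simp
    · intro q _; simp
  have h3 : ∑ q ∈ Dd, (f q + f q.swap) ≤
      b * Dd.card + M * (Dd.filter (fun q => R < lev G H q.1 ∨ R < lev G H q.2)).card := by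
    calc ∑ q ∈ Dd, (f q + f q.swap)
        ≤ ∑ q ∈ Dd, (b + if (R < lev G H q.1 ∨ R < lev G H q.2) then M else 0) := by
          refine sum_le_sum fun q _ => ?_
          show min (lev G H q.1) (M - lev G H q.2) + min (lev G H q.2) (M - lev G H q.1) ≤ _
          split_ifs with hq
          · generalize lev G H q.1 = a
            generalize lev G H q.2 = c
            omega
          · push Not at hq
            have := hb _ _ hq.1 hq.2
            omega
      _ = b * Dd.card + M * (Dd.filter (fun q => R < lev G H q.1 ∨ R < lev G H q.2)).card := by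
          rw [sum_add_distrib, sum_const, smul_eq_mul, mul_comm, ← sum_filter, sum_const,
            smul_eq_mul, mul_comm M]
  -- the exceptional pairs
  set U : Finset V := univ.filter (fun u => R < lev G H u) with hU
  have hUH : ∀ u ∈ U, G.degree u ≤ D := by
    intro u hu
    rw [hU, mem_filter] at hu
    apply hD
    intro h
    have := lev_zero (G := G) h
    omega
  have h4 : (Dd.filter (fun q => R < lev G H q.1 ∨ R < lev G H q.2)).card ≤ 2 * (U.card * D) := by
    have h5 := card_pairs_le G U D hUH
    have hsub : Dd.filter (fun q => R < lev G H q.1 ∨ R < lev G H q.2) ⊆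
        univ.filter (fun q : V × V => G.Adj q.1 q.2 ∧ q.1 ∈ U) ∪
        (univ.filter (fun q : V × V => G.Adj q.1 q.2 ∧ q.1 ∈ U)).image Prod.swap := by
      rintro ⟨a, c⟩ hq
      simp only [hDd, mem_filter, mem_univ, true_and] at hq
      rw [mem_union]
      rcases hq.2 with h | h
      · left
        simp only [mem_filter, mem_univ, true_and, hU]
        exact ⟨hq.1.1, h⟩
      · right
        rw [mem_image]
        refine ⟨(c, a), ?_, rfl⟩
        simp only [mem_filter, mem_univ, true_and, hU]
        exact ⟨hq.1.1.symm, h⟩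
    have h6 := card_le_card hsub
    have h7 := card_union_le (univ.filter (fun q : V × V => G.Adj q.1 q.2 ∧ q.1 ∈ U))
      ((univ.filter (fun q : V × V => G.Adj q.1 q.2 ∧ q.1 ∈ U)).image Prod.swap)
    have h8 := card_image_le (s := univ.filter (fun q : V × V => G.Adj q.1 q.2 ∧ q.1 ∈ U))
      (f := Prod.swap)
    omega
  -- the number of tree pairs
  have h9 : Dd.card + 2 * (univ \ H).card ≤ 2 * G.edgeFinset.card := by
    rw [← card_adj_pairs G, ← hA]
    set T1 : Finset (V × V) := (univ \ H).image (fun v => (v, p v)) with hT1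
    set T2 : Finset (V × V) := (univ \ H).image (fun v => (p v, v)) with hT2
    have c1 : T1.card = (univ \ H).card := by
      rw [hT1, card_image_of_injective]
      intro a c hac
      exact (Prod.mk.inj hac).1
    have c2 : T2.card = (univ \ H).card := by
      rw [hT2, card_image_of_injective]
      intro a c hac
      exact (Prod.mk.inj hac).2
    have d12 : Disjoint T1 T2 := by
      rw [Finset.disjoint_left]
      intro q hq1 hq2
      rw [hT1, mem_image] at hq1
      rw [hT2, mem_image] at hq2
      obtain ⟨v, hv, rfl⟩ := hq1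
      obtain ⟨v', hv', h⟩ := hq2
      have e1 : p v' = v := (Prod.mk.inj h).1
      have e2 : v' = p v := (Prod.mk.inj h).2
      have l1 := (hp1 v (mem_sdiff.mp hv).2).2
      have l2 := (hp1 v' (mem_sdiff.mp hv').2).2
      rw [e1, e2] at l2
      omega
    have dD : Disjoint Dd (T1 ∪ T2) := by
      rw [Finset.disjoint_left]
      intro q hq hq'
      rw [hDd, mem_filter] at hq
      rw [mem_union, hT1, hT2, mem_image, mem_image] at hq'
      rcases hq' with ⟨v, _, rfl⟩ | ⟨v, _, rfl⟩
      · exact hq.2.2.1 rfl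
      · exact hq.2.2.2 rfl
    have hsub : Dd ∪ (T1 ∪ T2) ⊆ A := by
      intro q hq
      rw [mem_union, mem_union] at hq
      rw [hA, mem_filter]
      refine ⟨mem_univ _, ?_⟩
      rcases hq with hq | hq | hq
      · rw [hDd, mem_filter] at hq
        exact hq.2.1
      · rw [hT1, mem_image] at hq
        obtain ⟨v, hv, rfl⟩ := hq
        exact (hp1 v (mem_sdiff.mp hv).2).1
      · rw [hT2, mem_image] at hq
        obtain ⟨v, hv, rfl⟩ := hq
        exact (hp1 v (mem_sdiff.mp hv).2).1.symm
    have := card_le_card hsub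
    rw [card_union_of_disjoint dD, card_union_of_disjoint d12, c1, c2] at this
    omega
  have h10 : 2 * (univ \ H).card ≤ b * Dd.card + M * (2 * (U.card * D)) := by
    have : 2 * (univ \ H).card ≤ ∑ q ∈ Dd, (f q + f q.swap) := by
      rw [sum_add_distrib, ← h2]
      omega
    refine this.trans (h3.trans ?_)
    exact Nat.add_le_add_left (Nat.mul_le_mul_left _ h4) _
  have h11 : b * Dd.card + b * (2 * (univ \ H).card) ≤ b * (2 * G.edgeFinset.card) := by
    rw [← Nat.mul_add]
    exact Nat.mul_le_mul_left _ h9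
  have h12 : M * (2 * (U.card * D)) = 2 * M * (U.card * D) := by ring
  have h13 : b * (2 * (univ \ H).card) = 2 * (univ \ H).card * b := by ring
  have h14 : b * (2 * G.edgeFinset.card) = 2 * b * G.edgeFinset.card := by ring
  rw [h12] at h10
  rw [h13, h14] at h11
  rw [Nat.mul_add, Nat.mul_one]
  omega

/-- The lower bound, with explicit error terms. -/
theorem lower_nat (d D : ℕ) (hD : 1 ≤ D) (hn : D ^ d < Fintype.card V)
    (hG : ∀ (e : Sym2 V) (x y : V), ∃ w : (G.deleteEdges {e}).Walk x y, w.length ≤ d) :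
    D * (2 * d / 3 + 1) * Fintype.card V ≤
      (D * (2 * d / 3) + 2 * (2 * d / 3 + 1)) * G.edgeFinset.card + d * D ^ (d + 2) := by
  classical
  set H : Finset V := univ.filter (fun v => D ≤ G.degree v) with hH
  have hdeg : ∀ x, x ∉ H → G.degree x < D := by
    intro x hx
    rw [hH, mem_filter] at hx
    push Not at hx
    exact hx (mem_univ _)
  have hG1 : ∀ x y : V, ∃ w : G.Walk x y, w.length ≤ d := by
    intro x y
    obtain ⟨w, hw⟩ := hG s(x, x) x y
    exact ⟨w.mapLe (G.deleteEdges_le _), by rw [Walk.length_map]; exact hw⟩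
  have hV : 0 < Fintype.card V := by omega
  obtain ⟨x0⟩ : Nonempty V := Fintype.card_pos_iff.mp hV
  -- there are hubs
  obtain ⟨h0, hh0⟩ : H.Nonempty := by
    rw [nonempty_iff_ne_empty]
    intro hempty
    have h1 : (univ : Finset V) ⊆ ball G H d x0 := by
      intro y _
      obtain ⟨w, hw⟩ := hG1 x0 y
      rcases walk_split (H := H) (le_refl G) w d hw with h | ⟨h, hh, _⟩
      · exact h
      · rw [hempty] at hh
        exact absurd hh (notMem_empty _)
    have h2 := card_le_card h1
    have h3 := card_ball G H D hdeg hD d x0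
    rw [card_univ] at h2
    omega
  have hconn : ∀ x, ∃ h ∈ H, Nonempty (G.Walk x h) := fun x =>
    ⟨h0, hh0, ⟨(hG1 x h0).choose⟩⟩
  have hlev : ∀ x, lev G H x ≤ d := by
    intro x
    obtain ⟨w, hw⟩ := hG1 x h0
    exact (lev_le hh0 w).trans hw
  -- the largest level with many vertices
  obtain ⟨R, hR1, hR2⟩ : ∃ R, D ^ d < (univ.filter (fun y => R ≤ lev G H y)).card ∧
      (univ.filter (fun y => R < lev G H y)).card ≤ D ^ d := by
    have hex : ∃ k, (univ.filter (fun y => k < lev G H y)).card ≤ D ^ d := by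
      refine ⟨d, ?_⟩
      have : univ.filter (fun y => d < lev G H y) = ∅ := by
        rw [filter_eq_empty_iff]
        intro y _
        have := hlev y
        omega
      rw [this]
      simp
    refine ⟨Nat.find hex, ?_, Nat.find_spec hex⟩
    rcases Nat.eq_zero_or_pos (Nat.find hex) with h | h
    · rw [h]
      simpa using hn
    · have h1 := Nat.find_min hex (m := Nat.find hex - 1) (by omega)
      rw [not_le] at h1
      have h2 : univ.filter (fun y => Nat.find hex - 1 < lev G H y) =
          univ.filter (fun y => Nat.find hex ≤ lev G H y) := by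
        apply filter_congr
        intro y _
        omega
      rwa [h2] at h1
  have hM : ∀ (e : Sym2 V) (x : V), ∃ h ∈ H, ∃ w : (G.deleteEdges {e}).Walk x h,
      w.length ≤ d - R := by
    intro e x
    obtain ⟨y, hy1, hy2⟩ : ∃ y ∈ univ.filter (fun y => R ≤ lev G H y), y ∉ ball G H d x := by
      apply exists_mem_notMem_of_card_lt_card
      exact lt_of_le_of_lt (card_ball G H D hdeg hD d x) hR1
    rw [mem_filter] at hy1
    obtain ⟨w, hw⟩ := hG e x y
    have hle : G.deleteEdges {e} ≤ G := G.deleteEdges_le _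
    rcases walk_split (H := H) hle w d hw with h | ⟨h, hh, w1, w2, h12⟩
    · exact absurd h hy2
    · refine ⟨h, hh, w1, ?_⟩
      have := lev_le hh (w2.mapLe hle).reverse
      rw [Walk.length_reverse, Walk.length_map] at this
      have := hy1.2
      omega
  have hb : ∀ a c : ℕ, a ≤ R → c ≤ R → min a (d - R - c) + min c (d - R - a) ≤ 2 * d / 3 := by
    intro a c ha hc
    omega
  have hcount := count G H hconn (d - R) R (2 * d / 3) D hM hb
    (fun x hx => (hdeg x hx).le)
  -- the number of hubs
  have hhubs : H.card * D ≤ 2 * G.edgeFinset.card := by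
    rw [← G.sum_degrees_eq_twice_card_edges]
    calc H.card * D = ∑ _v ∈ H, D := by rw [sum_const, smul_eq_mul]
      _ ≤ ∑ v ∈ H, G.degree v := sum_le_sum fun v hv => by
          rw [hH, mem_filter] at hv; exact hv.2
      _ ≤ ∑ v, G.degree v := sum_le_univ_sum_of_nonneg fun _ => Nat.zero_le _
  have hN : (univ \ H).card + H.card = Fintype.card V := by
    rw [card_sdiff_add_card_eq_card (subset_univ H), card_univ]
  have hexc : 2 * (d - R) * ((univ.filter (fun u => R < lev G H u)).card * D) ≤
      2 * d * (D ^ d * D) := by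
    refine Nat.mul_le_mul ?_ (Nat.mul_le_mul_right _ hR2)
    omega
  set N := (univ \ H).card
  set h := H.card
  set m := G.edgeFinset.card
  set b := 2 * d / 3
  rw [← hN]
  have e1 : N * (b + 1) ≤ b * m + d * (D ^ d * D) := by
    have : 2 * (N * (b + 1)) ≤ 2 * (b * m + d * (D ^ d * D)) := by
      calc 2 * (N * (b + 1)) = 2 * N * (b + 1) := by ring
        _ ≤ 2 * b * m + 2 * d * (D ^ d * D) := hcount.trans (Nat.add_le_add_left hexc _)
        _ = _ := by ring
    omega
  calc D * (b + 1) * (N + h) = D * (N * (b + 1)) + (b + 1) * (h * D) := by ring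
    _ ≤ D * (b * m + d * (D ^ d * D)) + (b + 1) * (2 * m) :=
        Nat.add_le_add (Nat.mul_le_mul_left _ e1) (Nat.mul_le_mul_left _ hhubs)
    _ = (D * b + 2 * (b + 1)) * m + d * D ^ (d + 2) := by ring

end count

end Pool.Agent.Helper7.BH2
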