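import Mathlib

/-!
Cycles sharing one vertex, and the transport of the property to `Fin n`.
-/

set_option autoImplicit false

namespace Pool.Agent.Helper7.BH2

open SimpleGraph

/-- `G` and all the graphs `G - e` have diameter at most `d`. -/
def Keeps {V : Type*} (G : SimpleGraph V) (d : ℕ) : Prop :=
  G.ediam ≤ (d : ℕ∞) ∧ ∀ e ∈ G.edgeSet, (G.deleteEdges {e}).ediam ≤ (d : ℕ∞)

/-- joined by a walk of length at most `k` -/
def Wk {V : Type*} (G : SimpleGraph V) (k : ℕ) (x y : V) : Prop := ∃ w : G.Walk x y, w.length ≤ k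

section Wk
variable {V : Type*} {G : SimpleGraph V}

lemma Wk.refl (x : V) (k : ℕ) : Wk G k x x := ⟨Walk.nil, by simp⟩

lemma Wk.symm {k : ℕ} {x y : V} (h : Wk G k x y) : Wk G k y x := by
  obtain ⟨w, hw⟩ := h
  exact ⟨w.reverse, by simpa using hw⟩

lemma Wk.trans {k l : ℕ} {x y z : V} (h : Wk G k x y) (h' : Wk G l y z) : Wk G (k + l) x z := by
  obtain ⟨w, hw⟩ := h
  obtain ⟨w', hw'⟩ := h'
  exact ⟨w.append w', by rw [Walk.length_append]; omega⟩

lemma Wk.mono {k l : ℕ} {x y : V} (h : Wk G k x y) (hkl : k ≤ l) : Wk G l x y := by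
  obtain ⟨w, hw⟩ := h
  exact ⟨w, hw.trans hkl⟩

lemma Wk.step {x y : V} (h : G.Adj x y) : Wk G 1 x y := ⟨Walk.cons h Walk.nil, by simp⟩

lemma ediam_le_iff_wk (d : ℕ) : G.ediam ≤ (d : ℕ∞) ↔ ∀ x y, Wk G d x y := by
  rw [SimpleGraph.ediam_le_iff]
  constructor
  · intro h x y
    have h1 := h x y
    have h2 : G.edist x y ≠ ⊤ := ne_top_of_le_ne_top (ENat.natCast_ne_top d) h1
    obtain ⟨p, hp⟩ := SimpleGraph.exists_walk_of_edist_ne_top h2
    refine ⟨p, ?_⟩
    rw [← hp] at h1
    exact_mod_cast h1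
  · intro h x y
    obtain ⟨w, hw⟩ := h x y
    exact (SimpleGraph.edist_le w).trans (by exact_mod_cast hw)

lemma keeps_iff (d : ℕ) : Keeps G d ↔ ∀ (e : Sym2 V) (x y : V), Wk (G.deleteEdges {e}) d x y := by
  constructor
  · rintro ⟨h1, h2⟩ e x y
    by_cases he : e ∈ G.edgeSet
    · exact (ediam_le_iff_wk d).mp (h2 e he) x y
    · have : G.deleteEdges {e} = G := by
        rw [deleteEdges_eq_self]
        exact Set.disjoint_singleton_right.mpr he
      rw [this]
      exact (ediam_le_iff_wk d).mp h1 x y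
  · intro h
    refine ⟨?_, fun e _ => (ediam_le_iff_wk d).mpr (h e)⟩
    rw [ediam_le_iff_wk]
    intro x y
    obtain ⟨w, hw⟩ := h s(x, x) x y
    exact ⟨w.mapLe (G.deleteEdges_le _), by rw [Walk.length_map]; exact hw⟩

end Wk

/-- Transport to `Fin n`. -/
lemma transport {V : Type} [Fintype V] (G : SimpleGraph V) (n d : ℕ) (hn : Fintype.card V = n)
    (h : Keeps G d) :
    ∃ G' : SimpleGraph (Fin n), G'.edgeSet.ncard = G.edgeSet.ncard ∧ Keeps G' d := by
  let φ : V ≃ Fin n := Fintype.equivFinOfCardEq hn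
  refine ⟨G.comap φ.symm, ?_, ?_⟩
  · have e := (SimpleGraph.Iso.comap φ.symm G).mapEdgeSet
    have := Nat.card_congr e
    simpa [Nat.card_coe_set_eq] using this
  · rw [keeps_iff] at h ⊢
    intro e x y
    obtain ⟨w, hw⟩ := h (e.map φ.symm) (φ.symm x) (φ.symm y)
    let f : G.deleteEdges {e.map φ.symm} →g (G.comap φ.symm).deleteEdges {e} :=
      { toFun := φ
        map_rel' := by
          intro a b hab
          rw [deleteEdges_adj] at hab ⊢
          refine ⟨by simpa using hab.1, ?_⟩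
          intro h'
          apply hab.2
          rw [Set.mem_singleton_iff] at h' ⊢
          rw [← h']
          simp }
    have hx : f (φ.symm x) = x := φ.apply_symm_apply x
    have hy : f (φ.symm y) = y := φ.apply_symm_apply y
    exact ⟨(w.map f).copy hx hy, by rw [Walk.length_copy, Walk.length_map]; exact hw⟩

/-! ### Cycles sharing one vertex -/

section cycles

variable {K : ℕ} (l : Fin K → ℕ)

/-- the vertices -/
abbrev Vt : Type := Option (Σ j : Fin K, Fin (l j))

/-- The `t`-th point of the `j`-th cycle, `0 ≤ t ≤ l j + 1`. -/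
def pt (j : Fin K) (t : ℕ) : Vt l :=
  if h : 1 ≤ t ∧ t ≤ l j then some ⟨j, ⟨t - 1, by omega⟩⟩ else none

lemma pt_eq {j j' : Fin K} {t t' : ℕ} (h : pt l j t = pt l j' t') :
    (j = j' ∧ t = t') ∨ ((t = 0 ∨ l j < t) ∧ (t' = 0 ∨ l j' < t')) := by
  unfold pt at h
  split_ifs at h with h1 h2 h2
  · left
    rw [Option.some.injEq, Sigma.mk.injEq] at h
    obtain ⟨rfl, h3⟩ := h
    have h4 := congrArg Fin.val (eq_of_heq h3)
    simp only at h4
    exact ⟨rfl, by omega⟩
  · right
    omega

/-- the `t`-th edge of the `j`-th cycle, `0 ≤ t ≤ l j` -/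
def ed (q : Σ j : Fin K, Fin (l j + 1)) : Sym2 (Vt l) := s(pt l q.1 q.2, pt l q.1 (q.2 + 1))

lemma ed_inj (hl : ∀ j, 2 ≤ l j) {j j' : Fin K} {t t' : ℕ} (ht : t ≤ l j) (ht' : t' ≤ l j')
    (h : s(pt l j t, pt l j (t + 1)) = s(pt l j' t', pt l j' (t' + 1))) : j = j' ∧ t = t' := by
  rw [Sym2.eq_iff] at h
  have h2 := hl j
  have h2' := hl j'
  rcases h with ⟨ha, hb⟩ | ⟨ha, hb⟩
  · rcases pt_eq l ha with h3 | h3
    · exact h3
    · rcases pt_eq l hb with h4 | h4
      · exact ⟨h4.1, by omega⟩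
      · omega
  · rcases pt_eq l ha with h3 | h3
    · obtain ⟨rfl, h3⟩ := h3
      rcases pt_eq l hb with h4 | h4 <;> omega
    · rcases pt_eq l hb with h4 | h4
      · obtain ⟨rfl, h4⟩ := h4
        omega
      · omega

/-- The graph. -/
def cyc : SimpleGraph (Vt l) := SimpleGraph.fromEdgeSet (Set.range (ed l))

lemma cyc_adj (hl : ∀ j, 2 ≤ l j) (j : Fin K) (t : ℕ) (ht : t ≤ l j) :
    (cyc l).Adj (pt l j t) (pt l j (t + 1)) := by
  rw [cyc, fromEdgeSet_adj]
  refine ⟨⟨⟨j, ⟨t, by omega⟩⟩, rfl⟩, ?_⟩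
  intro h
  have := hl j
  rcases pt_eq l h with h | h <;> omega

lemma cyc_ncard : (cyc l).edgeSet.ncard ≤ ∑ j, (l j + 1) := by
  rw [cyc, edgeSet_fromEdgeSet]
  refine (Set.ncard_le_ncard Set.sdiff_subset (Set.toFinite _)).trans ?_
  rw [← Set.image_univ]
  refine (Set.ncard_image_le (Set.toFinite _)).trans ?_
  rw [Set.ncard_univ, Nat.card_eq_fintype_card, Fintype.card_sigma]
  simp

lemma cyc_card : Fintype.card (Vt l) = ∑ j, l j + 1 := by
  rw [Fintype.card_option, Fintype.card_sigma]
  simp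

/-- a free stretch of a cycle -/
lemma stretch (hl : ∀ j, 2 ≤ l j) (e : Sym2 (Vt l)) (j : Fin K) (a : ℕ) :
    ∀ m : ℕ, a + m ≤ l j + 1 → (∀ t, a ≤ t → t < a + m → s(pt l j t, pt l j (t + 1)) ≠ e) →
      Wk ((cyc l).deleteEdges {e}) m (pt l j a) (pt l j (a + m)) := by
  intro m
  induction m with
  | zero => intro _ _; exact Wk.refl _ _
  | succ m ih =>
    intro h1 h2
    refine (ih (by omega) (fun t h3 h4 => h2 t h3 (by omega))).trans (Wk.step ?_)
    rw [deleteEdges_adj]
    refine ⟨cyc_adj l hl j (a + m) (by omega), ?_⟩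
    rw [Set.mem_singleton_iff]
    exact h2 (a + m) (by omega) (by omega)

lemma pt_zero (j : Fin K) : pt l j 0 = none := by simp [pt]

lemma pt_last (j : Fin K) : pt l j (l j + 1) = none := by simp [pt]

lemma pt_surj (x : Vt l) (hx : x ≠ none) : ∃ j t, 1 ≤ t ∧ t ≤ l j ∧ x = pt l j t := by
  rcases x with _ | ⟨j, i⟩
  · exact absurd rfl hx
  · refine ⟨j, i + 1, by omega, by omega, ?_⟩
    have : 1 ≤ (i : ℕ) + 1 ∧ (i : ℕ) + 1 ≤ l j := by omega
    rw [pt, dif_pos this]
    rfl

/-- within one cycle -/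
lemma same (hl : ∀ j, 2 ≤ l j) (e : Sym2 (Vt l)) (j : Fin K) (a c : ℕ) (hac : a ≤ c)
    (hc : c ≤ l j + 1) : Wk ((cyc l).deleteEdges {e}) (max (c - a) (l j + 1 - (c - a)))
      (pt l j a) (pt l j c) ∧
      ((∀ t, t ≤ l j → s(pt l j t, pt l j (t + 1)) ≠ e) →
        Wk ((cyc l).deleteEdges {e}) (c - a) (pt l j a) (pt l j c)) := by
  have hdir : (∀ t, a ≤ t → t < c → s(pt l j t, pt l j (t + 1)) ≠ e) →
      Wk ((cyc l).deleteEdges {e}) (c - a) (pt l j a) (pt l j c) := by
    intro h
    have := stretch l hl e j a (c - a) (by omega) (fun t h1 h2 => h t h1 (by omega))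
    rwa [show a + (c - a) = c by omega] at this
  refine ⟨?_, fun h => hdir (fun t _ h2 => h t (by omega))⟩
  by_cases h : ∀ t, a ≤ t → t < c → s(pt l j t, pt l j (t + 1)) ≠ e
  · exact (hdir h).mono (le_max_left _ _)
  · push Not at h
    obtain ⟨t0, h1, h2, h3⟩ := h
    have hfree : ∀ t, t ≤ l j → t ≠ t0 → s(pt l j t, pt l j (t + 1)) ≠ e := by
      intro t ht hne h'
      rw [← h3] at h'
      exact hne (ed_inj l hl ht (by omega) h').2
    have w1 := stretch l hl e j 0 a (by omega) (fun t _ h5 => hfree t (by omega) (by omega))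
    have w2 := stretch l hl e j c (l j + 1 - c) (by omega)
      (fun t h4 h5 => hfree t (by omega) (by omega))
    rw [show c + (l j + 1 - c) = l j + 1 by omega, pt_last] at w2
    rw [show 0 + a = a by omega, pt_zero] at w1
    refine (w1.symm.trans w2.symm).mono ?_
    refine le_trans ?_ (le_max_right _ _)
    omega

lemma cyc_keeps (d : ℕ) (hl : ∀ j, 2 ≤ l j) (hb : ∀ j, l j ≤ 2 * d / 3) (hd : 1 ≤ d) :
    Keeps (cyc l) d := by
  rw [keeps_iff]
  intro e
  -- to the centre
  have hcen : ∀ j t, 1 ≤ t → t ≤ l j →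
      Wk ((cyc l).deleteEdges {e}) (2 * d / 3) (pt l j t) none ∧
      ((∀ s, s ≤ l j → s(pt l j s, pt l j (s + 1)) ≠ e) →
        Wk ((cyc l).deleteEdges {e}) (d - 2 * d / 3) (pt l j t) none) := by
    intro j t h1 h2
    have hbj := hb j
    constructor
    · have h3 := (same l hl e j 0 t (by omega) (by omega)).1
      rw [pt_zero] at h3
      refine h3.symm.mono ?_
      rw [max_le_iff]
      omega
    · intro h
      by_cases ht : t ≤ d - 2 * d / 3
      · have h3 := (same l hl e j 0 t (by omega) (by omega)).2 h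
        rw [pt_zero] at h3
        exact h3.symm.mono (by omega)
      · have h3 := (same l hl e j t (l j + 1) (by omega) (by omega)).2 h
        rw [pt_last] at h3
        exact h3.mono (by omega)
  intro x y
  by_cases hx : x = none
  · subst hx
    by_cases hy : y = none
    · subst hy
      exact Wk.refl _ _
    · obtain ⟨j, t, h1, h2, rfl⟩ := pt_surj l y hy
      exact (hcen j t h1 h2).1.symm.mono (by omega)
  · obtain ⟨j, t, h1, h2, rfl⟩ := pt_surj l x hx
    by_cases hy : y = none
    · subst hy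
      exact (hcen j t h1 h2).1.mono (by omega)
    · obtain ⟨j', t', h1', h2', rfl⟩ := pt_surj l y hy
      by_cases hjj : j = j'
      · subst hjj
        have hbj := hb j
        rcases le_total t t' with htt | htt
        · by_cases hne : t = t'
          · subst hne
            exact Wk.refl _ _
          · refine (same l hl e j t t' htt (by omega)).1.mono ?_
            rw [max_le_iff]
            omega
        · by_cases hne : t = t'
          · subst hne
            exact Wk.refl _ _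
          · refine (same l hl e j t' t htt (by omega)).1.symm.mono ?_
            rw [max_le_iff]
            omega
      · by_cases hfree : ∀ s, s ≤ l j → s(pt l j s, pt l j (s + 1)) ≠ e
        · exact (((hcen j t h1 h2).2 hfree).trans (hcen j' t' h1' h2').1.symm).mono (by omega)
        · push Not at hfree
          obtain ⟨s0, hs0, hs0'⟩ := hfree
          have hfree' : ∀ s, s ≤ l j' → s(pt l j' s, pt l j' (s + 1)) ≠ e := by
            intro s hs h
            rw [← hs0'] at h
            exact hjj (ed_inj l hl hs hs0 h).1.symm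
          exact ((hcen j t h1 h2).1.trans ((hcen j' t' h1' h2').2 hfree').symm).mono (by omega)

end cycles

/-- Lengths of cycles. -/
lemma exists_lengths (b : ℕ) (hb : 3 ≤ b) : ∀ N : ℕ, 2 ≤ N →
    ∃ (K : ℕ) (l : Fin K → ℕ), (∀ j, 2 ≤ l j) ∧ (∀ j, l j ≤ b) ∧ ∑ j, l j = N ∧
      K * b ≤ N + 2 * b := by
  intro N
  induction N using Nat.strong_induction_on with
  | _ N ih =>
    intro hN
    rcases Nat.lt_or_ge b N with h | h
    · rcases Nat.eq_or_lt_of_le (show b + 1 ≤ N from h) with h' | h'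
      · refine ⟨2, ![b - 1, 2], ?_, ?_, ?_, ?_⟩
        · intro j; fin_cases j <;> simp; omega
        · intro j; fin_cases j <;> simp; omega
        · simp; omega
        · omega
      · obtain ⟨K, l, h1, h2, h3, h4⟩ := ih (N - b) (by omega) (by omega)
        refine ⟨K + 1, Fin.cons b l, ?_, ?_, ?_, ?_⟩
        · intro j
          refine Fin.cases ?_ ?_ j
          · simp; omega
          · intro i; simpa using h1 i
        · intro j
          refine Fin.cases ?_ ?_ j
          · simp
          · intro i; simpa using h2 i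
        · rw [Fin.sum_univ_succ]
          simp only [Fin.cons_zero, Fin.cons_succ]
          rw [h3]
          omega
        · rw [Nat.add_mul]
          omega
    · refine ⟨1, fun _ => N, fun _ => hN, fun _ => h, by simp, by omega⟩

/-- The upper bound. -/
theorem upper_nat (n d : ℕ) (hd : 5 ≤ d) (hn : 3 ≤ n) :
    ∃ G : SimpleGraph (Fin n), Keeps G d ∧
      (2 * d / 3) * G.edgeSet.ncard ≤ (2 * d / 3 + 1) * n + 2 * (2 * d / 3) := by
  obtain ⟨K, l, h1, h2, h3, h4⟩ := exists_lengths (2 * d / 3) (by omega) (n - 1) (by omega)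
  obtain ⟨G, hG1, hG2⟩ := transport (cyc l) n d (by rw [cyc_card, h3]; omega)
    (cyc_keeps l d h1 h2 (by omega))
  refine ⟨G, hG2, ?_⟩
  have h5 := cyc_ncard l
  rw [Finset.sum_add_distrib, h3] at h5
  simp only [Finset.sum_const, Finset.card_univ, Fintype.card_fin, smul_eq_mul, mul_one] at h5
  rw [hG1]
  set b := 2 * d / 3
  calc b * (cyc l).edgeSet.ncard ≤ b * (n - 1 + K) := Nat.mul_le_mul_left _ h5
    _ = b * (n - 1) + K * b := by ring
    _ ≤ b * n + (n - 1 + 2 * b) := Nat.add_le_add (Nat.mul_le_mul_left _ (by omega)) h4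
    _ ≤ (b + 1) * n + 2 * b := by
      have : (b + 1) * n = b * n + n := by ring
      omega

end Pool.Agent.Helper7.BH2
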